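import Pool.Agent.E8helper17.CND.S

/-! NOTR: the composite has no Hamiltonian path. -/

namespace Pool.Agent.E8helper25.CND

open H17CND

noncomputable section

open Classical

variable {V : Type}

/-- Sum of `F` over the consecutive pairs of a list. -/
def csum (F : V → V → ℤ) : List V → ℤ
  | [] => 0
  | [_] => 0
  | a :: b :: l => F a b + csum F (b :: l)

theorem csum_ends (f : V → ℤ) : ∀ (l : List V) (h t : V), l.head? = some h →
    l.getLast? = some t → csum (fun a b => f a + f b) l + f h + f t = 2 * (l.map f).sum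
  | [], h, t, hh, _ => by simp at hh
  | [a], h, t, hh, ht => by
      simp at hh ht
      subst hh; subst ht
      simp [csum]; ring
  | a :: b :: l, h, t, hh, ht => by
      simp at hh
      subst hh
      have := csum_ends f (b :: l) b t (by simp) (by
        rw [List.getLast?_cons_cons] at ht; exact ht)
      simp only [csum, List.map_cons, List.sum_cons] at this ⊢
      linarith

theorem csum_add (F G : V → V → ℤ) : ∀ l : List V,
    csum (fun a b => F a b + G a b) l = csum F l + csum G l
  | [] => by simp [csum]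
  | [a] => by simp [csum]
  | a :: b :: l => by
      have := csum_add F G (b :: l)
      simp only [csum] at this ⊢
      linarith

theorem csum_two (F : V → V → ℤ) : ∀ l : List V,
    csum (fun a b => 2 * F a b) l = 2 * csum F l
  | [] => by simp [csum]
  | [a] => by simp [csum]
  | a :: b :: l => by
      have := csum_two F (b :: l)
      simp only [csum] at this ⊢
      linarith

theorem csum_congr {R : V → V → Prop} (F G : V → V → ℤ) (h : ∀ a b, R a b → F a b = G a b) :
    ∀ l : List V, l.IsChain R → csum F l = csum G l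
  | [], _ => by simp [csum]
  | [a], _ => by simp [csum]
  | a :: b :: l, hc => by
      rw [List.isChain_cons_cons] at hc
      have := csum_congr F G h (b :: l) hc.2
      simp only [csum] at this ⊢
      rw [this, h a b hc.1]

/-- the pair `{a, b}` is the pair `{p, q}` -/
def rel (p q : V) (a b : V) : ℤ := if (a = p ∧ b = q) ∨ (a = q ∧ b = p) then 1 else 0

theorem csum_rel_zero (p q : V) : ∀ l : List V, (p ∉ l ∨ q ∉ l) → csum (rel p q) l = 0
  | [], _ => by simp [csum]
  | [a], _ => by simp [csum]
  | a :: b :: l, h => by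
      have h' : p ∉ (b :: l) ∨ q ∉ (b :: l) := by
        rcases h with h | h
        · left; intro hh; exact h (List.mem_cons_of_mem _ hh)
        · right; intro hh; exact h (List.mem_cons_of_mem _ hh)
      have := csum_rel_zero p q (b :: l) h'
      simp only [csum, this, add_zero]
      rw [rel, if_neg]
      rintro (⟨rfl, rfl⟩ | ⟨rfl, rfl⟩)
      · rcases h with h | h <;> exact h (by simp)
      · rcases h with h | h <;> exact h (by simp)

theorem csum_rel_le (p q : V) : ∀ l : List V, l.Nodup → csum (rel p q) l ≤ 1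
  | [], _ => by simp [csum]
  | [a], _ => by simp [csum]
  | a :: b :: l, h => by
      have h1 := List.nodup_cons.1 h
      by_cases hr : (a = p ∧ b = q) ∨ (a = q ∧ b = p)
      · have h0 : csum (rel p q) (b :: l) = 0 := by
          apply csum_rel_zero
          rcases hr with ⟨h2, _⟩ | ⟨h2, _⟩
          · left; rw [← h2]; exact h1.1
          · right; rw [← h2]; exact h1.1
        simp only [csum, h0, add_zero]
        rw [rel, if_pos hr]
      · have := csum_rel_le p q (b :: l) h1.2
        simp only [csum]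
        rw [rel, if_neg hr]
        linarith

theorem sum_ge_one (f : V → ℤ) (hf : ∀ v, 0 ≤ f v) (m : V) (hm : 1 ≤ f m) :
    ∀ l : List V, m ∈ l → 1 ≤ (l.map f).sum
  | [], h => by simp at h
  | a :: l, h => by
      rw [List.map_cons, List.sum_cons]
      have h0 : 0 ≤ (l.map f).sum := by
        apply List.sum_nonneg
        intro x hx
        obtain ⟨y, _, rfl⟩ := List.mem_map.1 hx
        exact hf y
      rcases List.mem_cons.1 h with rfl | h
      · linarith
      · have := sum_ge_one f hf m hm l h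
        have := hf a
        linarith

variable {β : Type}

/-- indicator of the part `i` -/
def sp (i : Fin 4) : CV β → ℤ
  | .b i' _ _ => if i' = i then 1 else 0
  | .x i' _ _ => if i' = i then 1 else 0
  | .m _ _ => 0

/-- indicator of the middle vertex `e` -/
def mi (e : Sym2 (Fin 4)) : CV β → ℤ
  | .b _ _ _ => 0
  | .x _ _ _ => 0
  | .m e' _ => if e' = e then 1 else 0

theorem sp_nonneg (i : Fin 4) (v : CV β) : 0 ≤ sp i v := by
  cases v <;> simp only [sp] <;> (try split_ifs) <;> norm_num

theorem mi_nonneg (e : Sym2 (Fin 4)) (v : CV β) : 0 ≤ mi e v := by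
  cases v <;> simp only [mi] <;> (try split_ifs) <;> norm_num

theorem wt (v : CV β) : sp 0 v + sp 1 v + sp 2 v + sp 3 v + mi s(0, 1) v + mi s(0, 2) v +
    mi s(0, 3) v + mi s(1, 2) v + mi s(1, 3) v + mi s(2, 3) v = 1 := by
  cases v with
  | b i s h => fin_cases i <;> simp [sp, mi]
  | x i j h => fin_cases i <;> simp [sp, mi]
  | m e h =>
    simp only [sp, mi]
    revert h
    revert e
    decide

theorem ifsym (i j i' j' : Fin 4) (hij : i ≠ j) (hij' : i' ≠ j') :
    (if (s(i', j') : Sym2 (Fin 4)) = s(i, j) then (1 : ℤ) else 0) =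
      (if i' = i ∧ j' = j then 1 else 0) + (if i' = j ∧ j' = i then 1 else 0) := by
  have hq : (s(i', j') : Sym2 (Fin 4)) = s(i, j) ↔ (i' = i ∧ j' = j) ∨ (i' = j ∧ j' = i) :=
    Sym2.eq_iff
  by_cases h1 : i' = i ∧ j' = j
  · have h2 : ¬ (i' = j ∧ j' = i) := by
      rintro ⟨h3, h4⟩; exact hij (h1.1.symm.trans h3)
    rw [if_pos (hq.2 (Or.inl h1)), if_pos h1, if_neg h2]; norm_num
  · by_cases h2 : i' = j ∧ j' = i
    · rw [if_pos (hq.2 (Or.inr h2)), if_neg h1, if_pos h2]; norm_num
    · rw [if_neg (by rw [hq]; tauto), if_neg h1, if_neg h2]; norm_num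

theorem mid (H : SimpleGraph β) (τ : Fin 4 → β) (i j : Fin 4) (hij : i ≠ j)
    (he : ¬ (s(i, j) : Sym2 (Fin 4)).IsDiag) (a b : CV β) (h : (comp H τ).Adj a b) :
    mi s(i, j) a + mi s(i, j) b =
      rel (CV.x i j hij) (CV.m s(i, j) he) a b + rel (CV.x j i hij.symm) (CV.m s(i, j) he) a b := by
  change cadj H τ a b at h
  have hne : i ≠ j := hij
  cases a with
  | b i1 s1 h1 =>
    cases b with
    | b i2 s2 h2 => simp [mi, rel]
    | x i2 j2 h2 => simp [mi, rel]
    | m e2 h2 => exact absurd h (by simp [cadj])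
  | x i1 j1 h1 =>
    cases b with
    | b i2 s2 h2 => simp [mi, rel]
    | x i2 j2 h2 => simp [mi, rel]
    | m e2 h2 =>
      simp only [cadj] at h
      subst h
      have hs := ifsym i j i1 j1 hij h1
      simp only [mi, zero_add]
      rw [hs]
      simp only [rel, CV.x.injEq, CV.m.injEq, reduceCtorEq, false_and, or_false, and_false]
      congr 1
      · by_cases h3 : i1 = i ∧ j1 = j
        · rw [if_pos h3, if_pos ⟨h3, by rw [h3.1, h3.2]⟩]
        · rw [if_neg h3, if_neg (fun h4 => h3 h4.1)]
      · by_cases h3 : i1 = j ∧ j1 = i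
        · rw [if_pos h3, if_pos ⟨h3, by rw [h3.1, h3.2]; exact Sym2.eq_swap⟩]
        · rw [if_neg h3, if_neg (fun h4 => h3 h4.1)]
  | m e1 h1 =>
    cases b with
    | b i2 s2 h2 => simp only [cadj] at h
    | m e2 h2 => simp only [cadj] at h
    | x i2 j2 h2 =>
      simp only [cadj] at h
      subst h
      have hs := ifsym i j i2 j2 hij h2
      simp only [mi, add_zero]
      rw [hs]
      simp only [rel, CV.x.injEq, CV.m.injEq, reduceCtorEq, false_and, false_or, and_false]
      congr 1
      · by_cases h3 : i2 = i ∧ j2 = j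
        · rw [if_pos h3, if_pos ⟨by rw [h3.1, h3.2], h3⟩]
        · rw [if_neg h3, if_neg (fun h4 => h3 h4.2)]
      · by_cases h3 : i2 = j ∧ j2 = i
        · rw [if_pos h3, if_pos ⟨by rw [h3.1, h3.2]; exact Sym2.eq_swap, h3⟩]
        · rw [if_neg h3, if_neg (fun h4 => h3 h4.2)]

theorem part (H : SimpleGraph β) (τ : Fin 4 → β) (i j k l : Fin 4) (hij : i ≠ j) (hik : i ≠ k)
    (hil : i ≠ l) (hjk : j ≠ k) (hjl : j ≠ l) (hkl : k ≠ l)
    (hj : ¬ (s(i, j) : Sym2 (Fin 4)).IsDiag) (hk : ¬ (s(i, k) : Sym2 (Fin 4)).IsDiag)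
    (hl : ¬ (s(i, l) : Sym2 (Fin 4)).IsDiag)
    (a b : CV β) (h : (comp H τ).Adj a b) :
    sp i a + sp i b =
      (rel (CV.x i j hij) (CV.m s(i, j) hj) a b + rel (CV.x i k hik) (CV.m s(i, k) hk) a b
      + rel (CV.x i l hil) (CV.m s(i, l) hl) a b) + 2 * (sp i a * sp i b) := by
  change cadj H τ a b at h
  have hcov : ∀ t : Fin 4, t = i ∨ t = j ∨ t = k ∨ t = l := by
    clear h hj hk hl
    revert i j k l; decide
  cases a <;> cases b <;> simp only [cadj] at h <;> simp [sp, rel]
  · rw [h.1]; split_ifs <;> norm_num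
  · rw [h.1]; split_ifs <;> norm_num
  · rw [h.1]; split_ifs <;> norm_num
  · rename_i i1 j1 h1 e1 h2
    subst h
    by_cases h3 : i1 = i
    · subst h3
      rcases hcov j1 with h4 | rfl | rfl | rfl
      · exact absurd h4.symm h1
      · simp [hjk, hjl]
      · simp [hjk.symm, hkl]
      · simp [hjl.symm, hkl.symm]
    · simp [h3]
  · rename_i e1 h2 i1 j1 h1
    subst h
    by_cases h3 : i1 = i
    · subst h3
      rcases hcov j1 with h4 | rfl | rfl | rfl
      · exact absurd h4.symm h1
      · simp [hjk, hjl]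
      · simp [hjk.symm, hkl]
      · simp [hjl.symm, hkl.symm]
    · simp [h3]

/-- bound for one part -/
theorem part_le (H : SimpleGraph β) (τ : Fin 4 → β) (L : List (CV β)) (hd : L.Nodup)
    (hc : L.IsChain (comp H τ).Adj) (h t : CV β) (hh : L.head? = some h)
    (ht : L.getLast? = some t) (i j k l : Fin 4) (hij : i ≠ j) (hik : i ≠ k)
    (hil : i ≠ l) (hjk : j ≠ k) (hjl : j ≠ l) (hkl : k ≠ l)
    (hj : ¬ (s(i, j) : Sym2 (Fin 4)).IsDiag) (hk : ¬ (s(i, k) : Sym2 (Fin 4)).IsDiag)
    (hl : ¬ (s(i, l) : Sym2 (Fin 4)).IsDiag) :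
    csum (rel (CV.x i j hij) (CV.m s(i, j) hj)) L + csum (rel (CV.x i k hik) (CV.m s(i, k) hk)) L
      + csum (rel (CV.x i l hil) (CV.m s(i, l) hl)) L ≤ 2 + sp i h + sp i t := by
  have h1 := csum_ends (sp i) L h t hh ht
  have h2 := csum_congr (fun a b => sp i a + sp i b) _
    (fun a b hab => part H τ i j k l hij hik hil hjk hjl hkl hj hk hl a b hab) L hc
  rw [h2, csum_add, csum_add, csum_add, csum_two] at h1
  have h3 := csum_rel_le (CV.x i j hij) (CV.m s(i, j) hj) L hd
  have h4 := csum_rel_le (CV.x i k hik) (CV.m s(i, k) hk) L hd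
  have h5 := csum_rel_le (CV.x i l hil) (CV.m s(i, l) hl) L hd
  have h6 := sp_nonneg i h
  have h7 := sp_nonneg i t
  omega

theorem mid_ge (H : SimpleGraph β) (τ : Fin 4 → β) (L : List (CV β))
    (hc : L.IsChain (comp H τ).Adj) (h t : CV β) (hh : L.head? = some h)
    (ht : L.getLast? = some t) (hall : ∀ v, v ∈ L) (i j : Fin 4) (hij : i ≠ j)
    (he : ¬ (s(i, j) : Sym2 (Fin 4)).IsDiag) (he' : ¬ (s(j, i) : Sym2 (Fin 4)).IsDiag) :
    2 ≤ csum (rel (CV.x i j hij) (CV.m s(i, j) he)) L
      + csum (rel (CV.x j i hij.symm) (CV.m s(j, i) he')) L + mi s(i, j) h + mi s(i, j) t := by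
  have h1 := csum_ends (mi s(i, j)) L h t hh ht
  have h2 := csum_congr (fun a b => mi s(i, j) a + mi s(i, j) b) _
    (fun a b hab => mid H τ i j hij he a b hab) L hc
  rw [h2, csum_add] at h1
  have h3 : (1 : ℤ) ≤ (L.map (mi s(i, j))).sum :=
    sum_ge_one (mi s(i, j)) (mi_nonneg _) (CV.m s(i, j) he) (by simp [mi]) L (hall _)
  have h4 : (CV.m s(j, i) he' : CV β) = CV.m s(i, j) he := by
    congr 1; exact Sym2.eq_swap
  rw [h4]
  omega

theorem t_NOTR : S_NOTR := by
  intro β H τ L hL hall
  obtain ⟨hd, hc⟩ := hL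
  have hne : L ≠ [] := by
    rintro rfl
    have := hall (CV.x 0 1 (by decide))
    simp at this
  obtain ⟨h, hh⟩ : ∃ h, L.head? = some h := ⟨L.head hne, List.head?_eq_some_head hne⟩
  obtain ⟨t, ht⟩ : ∃ t, L.getLast? = some t :=
    ⟨L.getLast hne, List.getLast?_eq_some_getLast hne⟩
  have p0 := part_le H τ L hd hc h t hh ht 0 1 2 3 (by decide) (by decide) (by decide) (by decide)
    (by decide) (by decide) (by decide) (by decide) (by decide)
  have p1 := part_le H τ L hd hc h t hh ht 1 0 2 3 (by decide) (by decide) (by decide) (by decide)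
    (by decide) (by decide) (by decide) (by decide) (by decide)
  have p2 := part_le H τ L hd hc h t hh ht 2 0 1 3 (by decide) (by decide) (by decide) (by decide)
    (by decide) (by decide) (by decide) (by decide) (by decide)
  have p3 := part_le H τ L hd hc h t hh ht 3 0 1 2 (by decide) (by decide) (by decide) (by decide)
    (by decide) (by decide) (by decide) (by decide) (by decide)
  have m01 := mid_ge H τ L hc h t hh ht hall 0 1 (by decide) (by decide) (by decide)
  have m02 := mid_ge H τ L hc h t hh ht hall 0 2 (by decide) (by decide) (by decide)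
  have m03 := mid_ge H τ L hc h t hh ht hall 0 3 (by decide) (by decide) (by decide)
  have m12 := mid_ge H τ L hc h t hh ht hall 1 2 (by decide) (by decide) (by decide)
  have m13 := mid_ge H τ L hc h t hh ht hall 1 3 (by decide) (by decide) (by decide)
  have m23 := mid_ge H τ L hc h t hh ht hall 2 3 (by decide) (by decide) (by decide)
  have wh := wt h
  have wt' := wt t
  linarith

end

end Pool.Agent.E8helper25.CND
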